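import Mathlib

set_option autoImplicit false

namespace Pool.Agent.Results.MP_e403d1_gt.No

open Set Filter Topology BoundedContinuousFunction

/-- No strictly coarser Hausdorff group topology (`τ ≤ σ` means that `σ` is coarser than `τ`). -/
def Min (G : Type) [AddCommGroup G] [τ : TopologicalSpace G] : Prop :=
  ∀ σ : TopologicalSpace G, @IsTopologicalAddGroup G σ _ → @T2Space G σ → τ ≤ σ → σ = τ

/-- the set `(1/n)U` -/
def frac {G : Type} [AddCommGroup G] (n : ℕ) (U : Set G) : Set G := {x | ∀ k : ℕ, 1 ≤ k → k ≤ n → k • x ∈ U}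

def UFSS (G : Type) [AddCommGroup G] [TopologicalSpace G] : Prop :=
  T2Space G ∧ ∃ U ∈ 𝓝 (0 : G), (∀ x ∈ U, -x ∈ U) ∧ (𝓝 (0 : G)).HasBasis (fun _ => True) fun n => frac n U

def AlmostMin (G : Type) [AddCommGroup G] [TopologicalSpace G] : Prop :=
  ∃ N : AddSubgroup G, IsClosed (N : Set G) ∧ Min N ∧ UFSS (G ⧸ N)

abbrev K : Type := ℕ × ℕ → ZMod 4
abbrev E : Type := ℕ →ᵇ ℝ

def R : AddSubgroup (ZMod 4 × ℝ) where
  carrier := {q | ∃ (m : ℤ) (k : ℕ), q.2 = m / 3 ^ k ∧ 2 * q.1 = 2 * m}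
  zero_mem' := ⟨0, 0, by simp, by simp⟩
  neg_mem' := fun ⟨m, k, a, b⟩ => ⟨-m, k, by simp [a, neg_div], by simp [b]⟩
  add_mem' := fun ⟨m, k, a, b⟩ ⟨n, l, c, d⟩ => ⟨m * 3 ^ l + n * 3 ^ k, k + l, by
    simp [a, c]; field_simp; ring, by
    have e : ∀ j : ℕ, (2 : ZMod 4) * 3 ^ j = 2 := fun j => by
      induction j with
      | zero => rfl
      | succ j h => rw [pow_succ, ← mul_assoc, h]; rfl
    push_cast
    rw [Prod.fst_add, mul_add, b, d]
    linear_combination (-m) * e l - n * e k⟩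

lemma R0 {x : ZMod 4} : (x, 0) ∈ R ↔ 2 * x = 0 :=
  ⟨fun ⟨m, k, a, b⟩ => by
    have : m = 0 := by simpa using a.symm
    simpa [this] using b, fun h => ⟨0, 0, by simp, by simpa using h⟩⟩

abbrev P (g : K × E) : Prop := ∀ᶠ p in cofinite, (g.1 p, g.2 p.1) ∈ R

def G : AddSubgroup (K × E) where
  carrier := {g | P g}
  zero_mem' := show P 0 from Eventually.of_forall fun _ => R.zero_mem
  neg_mem' := fun {a} (h : P a) => show P (-a) from h.mono fun _ a => R.neg_mem a
  add_mem' := fun {a b} (h : P a) (k : P b) => show P (a + b) from (h.and k).mono fun _ a => R.add_mem a.1 a.2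

noncomputable def π : G →+ E := (AddMonoidHom.snd K E).comp G.subtype
lemma cπ : Continuous π := continuous_snd.comp continuous_subtype_val

def H : AddSubgroup G where
  carrier := {g | ∀ i j, 2 * g.1.1 (i, j) = 2 * g.1.1 (i, 0)}
  zero_mem' := fun _ _ => rfl
  neg_mem' := fun h i j => by simpa using h i j
  add_mem' := fun h k i j => by simp [mul_add, h i j, k i j]

lemma ex (g : G) (i : ℕ) : ∃ j, (g.1.1 (i, j), g.1.2 i) ∈ R :=
  ((Prod.mk_right_injective i).tendsto_cofinite.eventually g.2).exists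

lemma nb {S : Set G} (h : S ∈ 𝓝 0) : ∃ F : Set (ℕ × ℕ), F.Finite ∧ ∃ ε > 0,
    ∀ g : G, (∀ p ∈ F, g.1.1 p = 0) → ‖π g‖ < ε → g ∈ S := by
  obtain ⟨T, t1, t2⟩ := (mem_nhds_induced _ _ _).1 h
  obtain ⟨A, a, B, b, c⟩ := mem_nhds_prod_iff.1 t1
  rw [nhds_pi, Filter.mem_pi] at a
  obtain ⟨F, f1, t, f2, f3⟩ := a
  obtain ⟨ε, e1, e2⟩ := Metric.mem_nhds_iff.1 b
  exact ⟨F, f1, ε, e1, fun g g1 g2 => t2 (c ⟨f3 fun p hp => g1 p hp ▸ mem_of_mem_nhds (f2 p),
    e2 (mem_ball_zero_iff.2 g2)⟩)⟩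

lemma minN : Min π.ker := by
  let e : π.ker →+ K := ((AddMonoidHom.fst K E).comp G.subtype).comp π.ker.subtype
  have i : ∀ {l : Filter π.ker} (n : π.ker), Tendsto e l (𝓝 (e n)) → l ≤ 𝓝 n := fun {l} n h =>
    tendsto_id'.1 <| tendsto_subtype_rng.2 (tendsto_subtype_rng.2 (h.prodMk_nhds
      (tendsto_const_nhds.congr fun m : π.ker => (n.2.trans m.2.symm :))))
  have t : IsTopologicalAddGroup π.ker := inferInstance
  have cu : ∀ l : Filter π.ker, (∀ z, MapClusterPt z l e → z = 0) → Tendsto e l (𝓝 0) := fun l h =>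
    tendsto_nhds_of_unique_mapClusterPt h
  intro σ s1 s2 s3
  have a : ∀ (l : Filter π.ker) [l.NeBot] (z : K), l ≤ @nhds _ σ 0 → Tendsto e l (𝓝 z) → 2 * z = 0 → z = 0 :=
    fun l _ z h1 h2 h3 => by
      let n : π.ker := ⟨⟨(z, 0), show P (z, 0) from Eventually.of_forall fun p => R0.2 (congrFun h3 p)⟩, rfl⟩
      exact congrArg e (@tendsto_nhds_unique _ _ σ s2 id l n 0 _ ((i n h2).trans (_root_.nhds_mono s3)) h1)
  refine IsTopologicalAddGroup.ext s1 t (le_antisymm (i 0 (cu _ fun z hz => ?_)) (_root_.nhds_mono s3))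
  obtain ⟨u, u1, u2⟩ := mapClusterPt_iff_ultrafilter.1 hz
  refine a u z u1 u2 (a (map (fun x => x + x) u) _ ?_ ?_ (funext fun p => ?_))
  · have := @Tendsto.add _ σ _ s1.toContinuousAdd _ id id u 0 0 u1 u1
    rwa [add_zero] at this
  · rw [two_mul, tendsto_map'_iff]
    exact (u2.add u2).congr fun x => (map_add e x x).symm
  · exact (by decide : ∀ x : ZMod 4, 2 * (2 * x) = 0) (z p)

lemma ufss : UFSS (G ⧸ π.ker) := by
  have : IsClosed (π.ker : Set G) := isClosed_singleton.preimage cπ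
  let φ := QuotientAddGroup.kerLift π
  have c : Continuous φ := (QuotientAddGroup.isQuotientMap_mk _).continuous_iff.2 cπ
  have b : ∀ ε > 0, {q | ‖φ q‖ < ε} ∈ 𝓝 0 := fun ε h =>
    (isOpen_lt c.norm continuous_const).mem_nhds (by simpa using h)
  refine ⟨inferInstance, _, b 1 one_pos, fun x hx => by simpa using hx, ⟨fun V => ⟨fun hV => ?_, fun ⟨n, _, h⟩ => ?_⟩⟩⟩
  · obtain ⟨F, f1, ε, e1, h⟩ := nb (QuotientAddGroup.continuous_mk.continuousAt.preimage_mem_nhds hV)
    obtain ⟨n, hn⟩ := exists_nat_one_div_lt e1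
    refine ⟨n + 1, trivial, fun q hq => ?_⟩
    obtain ⟨g, rfl⟩ := QuotientAddGroup.mk_surjective q
    have a : ‖φ ((n + 1) • (g : G ⧸ π.ker))‖ < 1 := hq (n + 1) (by omega) le_rfl
    rw [map_nsmul, ← Nat.cast_smul_eq_nsmul ℝ, norm_smul, Real.norm_natCast] at a
    have := h ⟨(Fᶜ.indicator g.1.1, g.1.2), show P _ from ((show P g.1 from g.2).and f1.eventually_cofinite_notMem).mono fun p hp => by
      simpa [indicator_of_mem (show p ∈ Fᶜ from hp.2)] using hp.1⟩ (fun p hp => indicator_of_notMem (not_not.2 hp) _)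
      (lt_trans ((lt_div_iff₀' (by positivity)).2 (by exact_mod_cast a)) hn)
    exact (congrArg (· ∈ V) (QuotientAddGroup.eq.2 (by exact neg_add_cancel g.1.2))).mp this
  · refine mem_of_superset (b (1 / (n + 1)) (by positivity)) fun q hq => h fun k _ k2 => ?_
    show ‖φ (k • q)‖ < 1
    rw [map_nsmul, ← Nat.cast_smul_eq_nsmul ℝ, norm_smul, Real.norm_natCast]
    have k3 : (k : ℝ) ≤ n + 1 := by exact_mod_cast k2.trans n.le_succ
    exact (mul_le_mul_of_nonneg_right k3 (norm_nonneg _)).trans_lt ((lt_div_iff₀' (by positivity)).1 hq)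

instance : Fact (0 < √2) := ⟨by positivity⟩

lemma zero_of_min {M : AddSubgroup H} (h : Min M) (g : M) : g.1.1.1.2 = 0 := by
  let v : M →+ K × E := (G.subtype.comp H.subtype).comp M.subtype
  have cv : Continuous v := continuous_subtype_val.comp (continuous_subtype_val.comp continuous_subtype_val)
  let c : M →+ K × (ℕ → AddCircle √2) :=
    { toFun := fun m => ((v m).1, fun i => ((v m).2 i : ℝ))
      map_zero' := by ext <;> simp
      map_add' := fun a b => by ext <;> simp }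
  have ci : Function.Injective c := (injective_iff_map_eq_zero c).2 fun m hm => by
    refine Subtype.ext (Subtype.ext (Subtype.ext (Prod.ext (congrArg Prod.fst hm :) (BoundedContinuousFunction.ext fun i => ?_))))
    obtain ⟨n, hn⟩ := (AddCircle.coe_eq_zero_iff _).1 (congrFun (congrArg Prod.snd hm) i)
    obtain ⟨j, a, k, e, -⟩ := ex m.1.1 i
    by_contra z
    have n0 : n ≠ 0 := fun q => z (show (v m).2 i = 0 by simpa [q] using hn.symm)
    refine (irrational_sqrt_two.intCast_mul n0) ⟨a / 3 ^ k, ?_⟩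
    push_cast
    rw [← zsmul_eq_mul, hn]; exact e.symm
  have cc : Continuous c := cv.fst.prodMk (continuous_pi fun i =>
    QuotientAddGroup.continuous_mk.comp ((continuous_eval_const i).comp cv.snd))
  have e := h _ (topologicalAddGroup_induced c)
    (@IsEmbedding.t2Space _ _ (TopologicalSpace.induced c inferInstance) _ _ _ ci.isEmbedding_induced) cc.le_induced
  by_contra z
  have : {m | ‖(v m).2‖ < ‖(v g).2‖} ∈ 𝓝 (0 : M) :=
    (isOpen_lt cv.snd.norm continuous_const).mem_nhds (by simpa using show (v g).2 ≠ 0 from z)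
  rw [(⟨e.symm⟩ : IsInducing c).nhds_eq_comap, map_zero] at this
  obtain ⟨W, w1, w2⟩ := this
  obtain ⟨k, k1, k2⟩ := (((mapClusterPt_zero_atTop_nsmul (c g)).frequently w1).and_eventually
    (eventually_ge_atTop 1)).exists
  have : ‖(v (k • g)).2‖ < _ := w2 (show c (k • g) ∈ W by rwa [map_nsmul])
  rw [map_nsmul, Prod.smul_snd, ← Nat.cast_smul_eq_nsmul ℝ, norm_smul, Real.norm_natCast] at this
  exact this.not_ge (le_mul_of_one_le_left (norm_nonneg _) (by exact_mod_cast k2))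

theorem result : ∃ (A : Type) (_ : AddCommGroup A) (_ : TopologicalSpace A), IsTopologicalAddGroup A ∧ T2Space A ∧
    AlmostMin A ∧ ∃ B : AddSubgroup A, IsClosed (B : Set A) ∧ ¬AlmostMin B := by
  have cx : ∀ p, Continuous fun g : G => 2 * g.1.1 p := fun p => by fun_prop
  refine ⟨G, inferInstance, inferInstance, inferInstance, inferInstance,
    ⟨π.ker, isClosed_singleton.preimage cπ, minN, ufss⟩, H, ?_, fun ⟨M, _, m, _, U, u1, _, u2⟩ => ?_⟩
  · show IsClosed {g : G | ∀ i j, _}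
    simp only [ofPred_forall]
    exact isClosed_iInter fun i => isClosed_iInter fun j => isClosed_eq (cx _) (cx _)
  obtain ⟨S, s1, s2⟩ := (mem_nhds_induced _ _ _).1
    (QuotientAddGroup.continuous_mk.continuousAt.preimage_mem_nhds (show U ∈ 𝓝 (((0 : H)) : H ⧸ M) from u1))
  obtain ⟨F, f1, ε, e1, h⟩ := nb s1
  obtain ⟨i, hi⟩ := (f1.image Prod.fst).infinite_compl.nonempty
  obtain ⟨n, -, hn⟩ := u2.mem_iff.1 (QuotientAddGroup.isOpenMap_coe.image_mem_nhds
    (((isOpen_discrete {0}).preimage ((cx (i, 0)).comp continuous_subtype_val)).mem_nhds (x := (0 : H)) (by simp)))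
  obtain ⟨k, hk⟩ := pow_unbounded_of_one_lt (n / ε) (by norm_num : (1 : ℝ) < 3)
  let t : E := ofNormedAddCommGroupDiscrete (fun j => if j = i then 1 / 3 ^ k else 0) (1 / 3 ^ k)
    fun j => by split_ifs <;> simp
  let g : H := ⟨⟨(fun p => if p.1 = i then 1 else 0, t), show P _ from Eventually.of_forall fun p => by
    by_cases q : p.1 = i
    · exact ⟨1, k, by simp [t, q], by simp [q]⟩
    · exact ⟨0, 0, by simp [t, q], by simp [q]⟩⟩, fun _ _ => rfl⟩
  obtain ⟨g', g1, g2⟩ := hn (show (g : H ⧸ M) ∈ frac n U from fun l _ l2 => s2 (show (l • g).1 ∈ S from h _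
    (fun p hp => by
      have : p.1 ≠ i := fun q => hi ⟨p, hp, q⟩
      simp [g, this]) (by
      show ‖π (l • g.1)‖ < ε
      rw [map_nsmul, ← Nat.cast_smul_eq_nsmul ℝ, norm_smul, Real.norm_natCast]
      have a : ‖π g.1‖ ≤ 1 / 3 ^ k := (norm_le (by positivity)).2 fun j => by
        show ‖if j = i then (1 : ℝ) / 3 ^ k else 0‖ ≤ _
        split_ifs <;> simp
      have b : (l : ℝ) ≤ n := by exact_mod_cast l2
      refine (mul_le_mul b a (norm_nonneg _) (by positivity)).trans_lt ?_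
      rw [mul_one_div, div_lt_iff₀ (by positivity)]
      rwa [div_lt_iff₀' e1] at hk)))
  have z := zero_of_min m ⟨_, QuotientAddGroup.eq.1 g2⟩
  obtain ⟨j, hj⟩ := ex (-g' + g).1 i
  rw [show (-g' + g).1.1.2 = 0 from z] at hj
  have a := ((-g' + g).2 i j).symm.trans (R0.1 hj)
  have b : 2 * g'.1.1.1 (i, 0) = 0 := g1
  simp [g, mul_add, b] at a
  exact absurd a (by decide)

end Pool.Agent.Results.MP_e403d1_gt.No
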